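import Pool.Agent.helper60.DB.SpecI

/-!
# Row bi:LL (linearity and base change of the operator `Lam`)
-/

namespace Pool.Agent.helper60.DB

open Polynomial Finset Pool.Agent.helper60.DK

theorem LL_th_add {R : Type*} [CommRing R] (f g : R[X]) : th (f + g) = th f + th g := by
  unfold th; rw [derivative_add]; ring

theorem LL_th_Cmul {R : Type*} [CommRing R] (c : R) (f : R[X]) : th (C c * f) = C c * th f := by
  unfold th; rw [derivative_C_mul]; ring

theorem LL_th_map {R S : Type*} [CommRing R] [CommRing S] (φ : R →+* S) (f : R[X]) :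
    (th f).map φ = th (f.map φ) := by
  simp only [th, ww, Polynomial.map_mul, Polynomial.map_sub, Polynomial.map_pow, Polynomial.map_X,
    Polynomial.map_one, Polynomial.map_ofNat, derivative_map]

theorem LL_add {R : Type*} [CommRing R] (P : R) (f g : R[X]) :
    Lam P (f + g) = Lam P f + Lam P g := by
  unfold Lam; rw [LL_th_add, LL_th_add, LL_th_add]; ring

theorem LL_Cmul {R : Type*} [CommRing R] (P c : R) (f : R[X]) :
    Lam P (C c * f) = C c * Lam P f := by
  unfold Lam; rw [LL_th_Cmul, LL_th_Cmul, LL_th_Cmul]; ring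

theorem LL_zero {R : Type*} [CommRing R] (P : R) : Lam P (0 : R[X]) = 0 := by
  have h := LL_Cmul P 0 (0 : R[X])
  rw [C_0, zero_mul, zero_mul] at h
  exact h

theorem LL_sub {R : Type*} [CommRing R] (P : R) (f g : R[X]) :
    Lam P (f - g) = Lam P f - Lam P g := by
  have h1 : f - g = f + C (-1) * g := by
    rw [C_neg, C_1]; ring
  rw [h1, LL_add, LL_Cmul, C_neg, C_1]; ring

theorem LL_sum {R : Type*} [CommRing R] (P : R) {ι : Type*} (s : Finset ι) (f : ι → R[X]) :
    Lam P (∑ i ∈ s, f i) = ∑ i ∈ s, Lam P (f i) := by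
  classical
  induction s using Finset.induction_on with
  | empty => rw [Finset.sum_empty, Finset.sum_empty, LL_zero]
  | insert a s ha ih => rw [Finset.sum_insert ha, Finset.sum_insert ha, LL_add, ih]

theorem LL_map {R S : Type*} [CommRing R] [CommRing S] (P : R) (φ : R →+* S) (f : R[X]) :
    (Lam P f).map φ = Lam (φ P) (f.map φ) := by
  have h1 : (A1 P).map φ = A1 (φ P) := by
    simp only [A1, Polynomial.map_mul, Polynomial.map_sub, Polynomial.map_neg,
      Polynomial.map_pow, Polynomial.map_X,
      Polynomial.map_one, Polynomial.map_ofNat, Polynomial.map_C, map_mul, map_neg, map_ofNat]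
  have h2 : (A2 P).map φ = A2 (φ P) := by
    simp only [A2, ww, Polynomial.map_mul, Polynomial.map_sub, Polynomial.map_add,
      Polynomial.map_neg, Polynomial.map_pow, Polynomial.map_X, Polynomial.map_one,
      Polynomial.map_ofNat, Polynomial.map_C, map_mul, map_neg, map_pow, map_ofNat]
  have h3 : (A3 P).map φ = A3 (φ P) := by
    simp only [A3, ww, Polynomial.map_mul, Polynomial.map_sub, Polynomial.map_add,
      Polynomial.map_neg, Polynomial.map_pow, Polynomial.map_X, Polynomial.map_one,
      Polynomial.map_ofNat, Polynomial.map_C, map_mul, map_neg, map_pow, map_ofNat]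
  unfold Lam
  rw [Polynomial.map_add, Polynomial.map_add, Polynomial.map_add, Polynomial.map_mul,
    Polynomial.map_mul, Polynomial.map_mul, LL_th_map, LL_th_map, LL_th_map, h1, h2, h3]

theorem LL : LL_stmt := by
  intro R _ P
  refine ⟨fun f g => LL_add P f g, fun f g => LL_sub P f g, fun c f => LL_Cmul P c f,
    fun ι s f => LL_sum P s f, fun S _ φ f => LL_map P φ f⟩

end Pool.Agent.helper60.DB
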