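import Pool.Agent.helper60.DB.SpecC

/-!
# Row bc:UQ (uniqueness of the solution of the first order equation)
-/

namespace Pool.Agent.helper60.DB

open Polynomial Finset

theorem UQ_der {K : Type*} [Field K] (n : ℕ) (ε : PowerSeries K) :
    PowerSeries.X * PowerSeries.derivative K (PowerSeries.X ^ n * ε)
      = PowerSeries.X ^ n * ((n : PowerSeries K) * ε + PowerSeries.X * PowerSeries.derivative K ε) := by
  induction n with
  | zero => simp
  | succ n ih =>
    have hX : PowerSeries.derivative K (PowerSeries.X : PowerSeries K) = 1 := by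
      exact PowerSeries.derivative_X
    have h1 : (PowerSeries.X : PowerSeries K) ^ (n + 1) * ε
        = PowerSeries.X * (PowerSeries.X ^ n * ε) := by ring
    rw [h1, Derivation.leibniz, hX, smul_eq_mul, smul_eq_mul]
    have h2 : (PowerSeries.X : PowerSeries K) * (PowerSeries.X * PowerSeries.derivative K
        (PowerSeries.X ^ n * ε) + PowerSeries.X ^ n * ε * 1)
        = PowerSeries.X * (PowerSeries.X ^ n * ((n : PowerSeries K) * ε
          + PowerSeries.X * PowerSeries.derivative K ε)) + PowerSeries.X * (PowerSeries.X ^ n * ε) := by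
      rw [← ih]; ring
    rw [h2]
    push_cast
    ring

theorem UQ : UQ_stmt := by
  intro K _ _ A B A' B' π ψ1 ψ2 hπ h1 h2 c1 c2 e1 e2
  have hd : ∀ ψ : PowerSeries K, PowerSeries.constantCoeff (PowerSeries.derivative K ψ)
      = PowerSeries.coeff 1 ψ := by
    intro ψ
    rw [← PowerSeries.coeff_zero_eq_constantCoeff_apply, PowerSeries.coeff_derivative]
    simp
  have key : ∀ n : ℕ, (PowerSeries.X : PowerSeries K) ^ n ∣ ψ1 - ψ2 := by
    intro n
    induction n with
    | zero => simp
    | succ n ih =>
      obtain ⟨ε, hε⟩ := ih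
      have hdel : PowerSeries.X * PowerSeries.derivative K ψ1
          - PowerSeries.X * PowerSeries.derivative K ψ2
          = PowerSeries.X ^ n * ((n : PowerSeries K) * ε
            + PowerSeries.X * PowerSeries.derivative K ε) := by
        rw [← UQ_der, ← hε, map_sub, mul_sub]
      have hE : PowerSeries.X ^ n * (((n : PowerSeries K) * ε
            + PowerSeries.X * PowerSeries.derivative K ε) * qs A B
            * (PowerSeries.derivative K ψ1 + PowerSeries.derivative K ψ2))
          = PowerSeries.X ^ n * (PowerSeries.C (π ^ 2) * ε * (1 + PowerSeries.C A' * (ψ1 + ψ2)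
            + PowerSeries.C B' * (ψ1 ^ 2 + ψ1 * ψ2 + ψ2 ^ 2))) := by
        have l1 : PowerSeries.X ^ n * (((n : PowerSeries K) * ε
            + PowerSeries.X * PowerSeries.derivative K ε) * qs A B
            * (PowerSeries.derivative K ψ1 + PowerSeries.derivative K ψ2))
            = PowerSeries.X * qs A B * (PowerSeries.derivative K ψ1) ^ 2
              - PowerSeries.X * qs A B * (PowerSeries.derivative K ψ2) ^ 2 := by
          have : PowerSeries.X ^ n * (((n : PowerSeries K) * ε
            + PowerSeries.X * PowerSeries.derivative K ε) * qs A B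
            * (PowerSeries.derivative K ψ1 + PowerSeries.derivative K ψ2))
            = (PowerSeries.X ^ n * ((n : PowerSeries K) * ε
            + PowerSeries.X * PowerSeries.derivative K ε)) * (qs A B
            * (PowerSeries.derivative K ψ1 + PowerSeries.derivative K ψ2)) := by ring
          rw [this, ← hdel]; ring
        have l2 : PowerSeries.X ^ n * (PowerSeries.C (π ^ 2) * ε * (1 + PowerSeries.C A' * (ψ1 + ψ2)
            + PowerSeries.C B' * (ψ1 ^ 2 + ψ1 * ψ2 + ψ2 ^ 2)))
            = PowerSeries.C (π ^ 2) * ψ1 * (1 + PowerSeries.C A' * ψ1 + PowerSeries.C B' * ψ1 ^ 2)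
              - PowerSeries.C (π ^ 2) * ψ2 * (1 + PowerSeries.C A' * ψ2
                + PowerSeries.C B' * ψ2 ^ 2) := by
          have : PowerSeries.X ^ n * (PowerSeries.C (π ^ 2) * ε * (1 + PowerSeries.C A' * (ψ1 + ψ2)
            + PowerSeries.C B' * (ψ1 ^ 2 + ψ1 * ψ2 + ψ2 ^ 2)))
            = (PowerSeries.X ^ n * ε) * (PowerSeries.C (π ^ 2) * (1 + PowerSeries.C A' * (ψ1 + ψ2)
            + PowerSeries.C B' * (ψ1 ^ 2 + ψ1 * ψ2 + ψ2 ^ 2))) := by ring
          rw [this, ← hε]; ring
        rw [l1, l2, e1, e2]
      have hX : (PowerSeries.X : PowerSeries K) ^ n ≠ 0 := pow_ne_zero _ PowerSeries.X_ne_zero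
      have hF := mul_left_cancel₀ hX hE
      have hG := congrArg PowerSeries.constantCoeff hF
      have hq : PowerSeries.constantCoeff (qs A B) = 1 := by
        simp [qs]
      simp only [map_mul, map_add, map_pow, map_one, map_natCast, hq, hd, c1, c2, h1, h2,
        PowerSeries.constantCoeff_X, PowerSeries.constantCoeff_C, zero_mul, mul_zero, add_zero,
        mul_one, ne_eq, OfNat.ofNat_ne_zero, not_false_eq_true, zero_pow] at hG
      have h3 : (2 * (n : K) - 1) * (π ^ 2 * PowerSeries.constantCoeff ε) = 0 := by
        linear_combination hG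
      have h4 : (2 * (n : K) - 1) ≠ 0 := by
        intro h
        have h5 : (2 * (n : K)) = 1 := by linear_combination h
        have h6 : ((2 * n : ℕ) : K) = ((1 : ℕ) : K) := by push_cast; exact h5
        have h7 := Nat.cast_injective h6
        omega
      have h8 : PowerSeries.constantCoeff ε = 0 := by
        rcases mul_eq_zero.mp h3 with h | h
        · exact absurd h h4
        · rcases mul_eq_zero.mp h with h | h
          · exact absurd h (pow_ne_zero _ hπ)
          · exact h
      obtain ⟨ε', hε'⟩ := PowerSeries.X_dvd_iff.mpr h8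
      refine ⟨ε', ?_⟩
      rw [hε, hε']; ring
  have h0 : ψ1 - ψ2 = 0 := by
    ext n
    have := PowerSeries.X_pow_dvd_iff.mp (key (n + 1)) n (Nat.lt_succ_self n)
    rw [this]; simp
  exact sub_eq_zero.mp h0

end Pool.Agent.helper60.DB
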